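import Pool.Agent.Helper42.QD.Stmts

namespace Pool.Agent.Helper8.QD

open Pool.Agent.Helper42.QD Pool.Agent.Helper42.QD.VD

section
variable {D k : Type} [DivisionRing D] [Field k] [Finite k] {c : VD D k}

omit [Finite k] in
/-- A function on `P ^ i`, multiplicative and trivial on `P ^ (i + n)`, with non-zero sum over
representatives, is trivial. -/
theorem chi_triv {i : ℤ} {n : ℕ} {S : Finset D} (hS1 : ∀ s ∈ S, c.P i s)
    (hS2 : ∀ x, c.P i x → ∃ s ∈ S, c.P (i + n) (x - s))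
    (hS3 : ∀ s ∈ S, ∀ s' ∈ S, c.P (i + n) (s - s') → s = s') (χ : D → ℂ)
    (hm : ∀ u u', c.P i u → c.P i u' → χ (u + u') = χ u * χ u')
    (ht : ∀ u, c.P (i + n) u → χ u = 1) (h0 : ∑ s ∈ S, χ s ≠ 0) (u : D) (hu : c.P i u) :
    χ u = 1 := by
  choose g hg hg' using fun s : S => hS2 (s.1 + u) (P_add (hS1 _ s.2) hu)
  have h1 : ∑ b ∈ S, χ b = ∑ b ∈ S, χ u * χ b := by
    rw [← Finset.sum_coe_sort S, ← Finset.sum_coe_sort S]
    let G : S → S := fun s => ⟨g s, hg s⟩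
    have hG : Function.Injective G := by
      intro s s' h
      have h2 : g s = g s' := congrArg Subtype.val h
      apply Subtype.ext
      apply hS3 _ s.2 _ s'.2
      have h3 : s.1 - s'.1 = (s.1 + u - g s) - (s'.1 + u - g s') := by rw [h2]; abel
      rw [h3]
      exact P_sub (hg' s) (hg' s')
    have hG' : Function.Bijective G := Finite.injective_iff_bijective.1 hG
    rw [← hG'.sum_comp (fun s : S => χ s.1)]
    refine Finset.sum_congr rfl fun s _ => ?_
    change χ (g s) = _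
    rw [← hm u s.1 hu (hS1 _ s.2)]
    have h4 : u + s.1 = g s + (s.1 + u - g s) := by abel
    have hin : (i : ℤ) ≤ i + n := by omega
    rw [h4, hm (g s) _ (hS1 _ (hg s)) (P_mono hin (hg' s)), ht _ (hg' s), mul_one]
  rw [← Finset.mul_sum] at h1
  have h2 : (1 - χ u) * ∑ b ∈ S, χ b = 0 := by
    rw [sub_mul, one_mul, ← h1, sub_self]
  rcases mul_eq_zero.1 h2 with h3 | h3
  · exact (sub_eq_zero.1 h3).symm
  · exact absurd h3 h0

/-- A character of `P ^ h`, trivial on `P ^ (h + 1)`, is given by an element of `P ^ (-h)`. -/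
theorem chi_rep (h : ℕ) (θ : D → ℂ)
    (hm : ∀ u u', c.P h u → c.P h u' → θ (u + u') = θ u * θ u')
    (ht : ∀ u, c.P ((h : ℤ) + 1) u → θ u = 1) :
    ∃ z, c.P (-h) z ∧ ∀ u, c.P h u → θ u = c.psi (z * u) := by
  classical
  obtain ⟨S, -, hS1, hS2, hS3⟩ := exists_reps c (h : ℤ) 1
  obtain ⟨Z, hZ0, hZ1, hZ2, hZ3⟩ := exists_reps c (-(h : ℤ)) 1
  obtain ⟨u0, hu0, hu0'⟩ := hS2 0 (c.P_zero _)
  have hu0'' : c.P ((h : ℤ) + 1) u0 := by
    have := P_neg hu0'
    rw [zero_sub, neg_neg] at this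
    exact P_mono (by push_cast; omega) this
  have hsum : ∑ z ∈ Z, ∑ u ∈ S, θ u * c.psi (-(z * u)) = (Z.card : ℂ) := by
    rw [Finset.sum_comm]
    have h1 : ∀ u ∈ S, ∑ z ∈ Z, θ u * c.psi (-(z * u)) =
        if u = u0 then (Z.card : ℂ) else 0 := by
      intro u hu
      rw [← Finset.mul_sum]
      have h2 : ∀ z, c.psi (-(z * u)) = c.psi ((-u) * z) := by
        intro z
        rw [← mul_neg, c.psi_comm]
      rw [Finset.sum_congr rfl fun z _ => h2 z]
      rw [chsum hZ1 hZ2 hZ3 (z := -u) (P_neg (P_mono (by push_cast; omega) (hS1 u hu)))]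
      by_cases hu' : u = u0
      · have h3 : c.P (1 - -(h : ℤ)) (-u) := by
          rw [hu']
          exact P_neg (P_mono (by omega) hu0'')
        rw [if_pos h3, if_pos hu', hu', ht _ hu0'', one_mul]
      · have h3 : ¬ c.P (1 - -(h : ℤ)) (-u) := by
          intro h4
          apply hu'
          apply hS3 u hu u0 hu0
          have h5 := P_neg h4
          rw [neg_neg] at h5
          exact P_sub (P_mono (by push_cast; omega) h5) (P_mono (by push_cast; omega) hu0'')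
        rw [if_neg h3, if_neg hu', mul_zero]
    rw [Finset.sum_congr rfl h1, Finset.sum_ite_eq' S u0, if_pos hu0]
  have hne : ∑ z ∈ Z, ∑ u ∈ S, θ u * c.psi (-(z * u)) ≠ 0 := by
    rw [hsum]
    exact Nat.cast_ne_zero.2 (Finset.card_pos.2 hZ0).ne'
  obtain ⟨z, hz, hz'⟩ := Finset.exists_ne_zero_of_sum_ne_zero hne
  have hzP := hZ1 z hz
  refine ⟨z, hzP, fun u hu => ?_⟩
  have h1 := chi_triv hS1 hS2 hS3 (fun u => θ u * c.psi (-(z * u))) (by
    intro a b ha hb
    rw [hm a b ha hb, mul_add, neg_add, AddChar.map_add_eq_mul]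
    ring) (by
    intro a ha
    have ha' : c.P ((h : ℤ) + 1) a := P_mono (by push_cast; omega) ha
    rw [ht a ha', c.psi_P _ (P_neg (P_mul' hzP ha' (by omega))), one_mul]) hz' u hu
  have h2 : c.psi (-(z * u)) * c.psi (z * u) = 1 := by
    rw [← AddChar.map_add_eq_mul, neg_add_cancel, AddChar.map_zero_eq_one]
  calc θ u = θ u * (c.psi (-(z * u)) * c.psi (z * u)) := by rw [h2, mul_one]
    _ = (θ u * c.psi (-(z * u))) * c.psi (z * u) := by rw [mul_assoc]
    _ = c.psi (z * u) := by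
      have h3 : θ u * c.psi (-(z * u)) = 1 := h1
      rw [h3, one_mul]

end

theorem st_OM (hA : ST_A) : ST_OM := by
  intro D k _ _ _ c R h f hh hf hfix
  have hx0 : c.T ^ (-(h : ℤ)) ≠ 0 := T_zpow_ne _
  have hvx : c.v (c.T ^ (-(h : ℤ))) = -h := v_T_zpow _
  obtain ⟨g, hg⟩ : ∃ g : Sp c, g.1 = ind c (c.T ^ (-(h : ℤ))) 1 :=
    ⟨⟨_, IsS_ind hx0 (by rw [hvx]; omega)⟩, rfl⟩
  have hgfix := hA D k c R h f hf hfix _ hx0 hvx g hg
  have ht : ∀ u, c.P ((h : ℤ) + 1) u → R.om (1 + u) = 1 := by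
    intro u hu
    have h1 := (one_add (P_mono (by omega) hu)).1
    have h2 := hgfix _ (KK_dg (by omega) hu hu)
    have h3 := congrArg (fun q : Sp c => q.1 (c.T ^ (-(h : ℤ)))) h2
    change (R.rho (dg (1 + u) (1 + u)) g).1 (c.T ^ (-(h : ℤ))) = g.1 (c.T ^ (-(h : ℤ))) at h3
    rw [R.rt _ _ h1 h1, hg] at h3
    have h4 : ind c (c.T ^ (-(h : ℤ))) 1 (c.T ^ (-(h : ℤ))) = 1 :=
      ind_apply_of (by rw [sub_self]; exact c.P_zero _)
    have h5 : ind c (c.T ^ (-(h : ℤ))) 1 ((1 + u)⁻¹ * c.T ^ (-(h : ℤ)) * (1 + u)) = 1 := by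
      apply ind_apply_of
      have h6 : (1 + u)⁻¹ * c.T ^ (-(h : ℤ)) * (1 + u) - c.T ^ (-(h : ℤ)) =
          (1 + u)⁻¹ * (c.T ^ (-(h : ℤ)) * u - u * c.T ^ (-(h : ℤ))) := by
        have h7 : c.T ^ (-(h : ℤ)) = (1 + u)⁻¹ * ((1 + u) * c.T ^ (-(h : ℤ))) := by
          rw [inv_mul_cancel_left₀ h1]
        calc (1 + u)⁻¹ * c.T ^ (-(h : ℤ)) * (1 + u) - c.T ^ (-(h : ℤ))
            = (1 + u)⁻¹ * c.T ^ (-(h : ℤ)) * (1 + u) -
              (1 + u)⁻¹ * ((1 + u) * c.T ^ (-(h : ℤ))) := by rw [← h7]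
          _ = _ := by noncomm_ring
      rw [h6]
      have h8 : c.P 0 (1 + u)⁻¹ := by
        have h9 := one_add (P_mono (by omega) hu : c.P 1 u)
        exact Or.inr (by rw [v_inv h9.1, h9.2]; simp)
      have hX : c.P (-(h : ℤ)) (c.T ^ (-(h : ℤ))) := Or.inr (by rw [hvx])
      exact P_mul' h8 (P_sub (P_mul' hX hu (l := 1) (by omega)) (P_mul' hu hX (by omega)))
        (by omega)
    rw [h4, h5, mul_one] at h3
    exact h3
  have hm : ∀ u u', c.P h u → c.P h u' → R.om (1 + (u + u')) = R.om (1 + u) * R.om (1 + u') := by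
    intro u u' hu hu'
    have h1 := one_add (c := c) (u := u + u') (P_mono (by omega) (P_add hu hu'))
    have h2 : c.P 0 (1 + (u + u'))⁻¹ := Or.inr (by rw [v_inv h1.1, h1.2]; simp)
    have h3 : c.P ((h : ℤ) + 1) ((1 + (u + u'))⁻¹ * (u * u')) :=
      P_mul' h2 (P_mul hu hu') (by omega)
    have h4 : (1 + u) * (1 + u') = (1 + (u + u')) * (1 + (1 + (u + u'))⁻¹ * (u * u')) := by
      rw [mul_add (1 + (u + u')) 1, mul_inv_cancel_left₀ h1.1]
      noncomm_ring
    rw [← map_mul, h4, map_mul, ht _ h3, mul_one]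
  obtain ⟨z, hz, hzu⟩ := chi_rep (c := c) h (fun u => R.om (1 + u)) hm ht
  refine ⟨z, hz, hzu, ?_⟩
  have key : ∀ y, y ≠ 0 → c.P (1 - h) (y⁻¹ * z * y - z) := by
    intro y hy
    apply psi_dual
    intro u hu
    have h1 : c.P h (y * u * y⁻¹) := P_conj hy hu
    have h2 : R.om (1 + y * u * y⁻¹) = R.om (1 + u) := by
      have h3 : 1 + y * u * y⁻¹ = y * (1 + u) * y⁻¹ := by
        rw [mul_add, mul_one, add_mul, mul_inv_cancel₀ hy]
      rw [h3, map_mul, map_mul, mul_comm (R.om y), mul_assoc, ← map_mul, mul_inv_cancel₀ hy,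
        map_one, mul_one]
    have h4 := hzu _ h1
    have h5 := hzu _ hu
    change R.om (1 + y * u * y⁻¹) = _ at h4
    change R.om (1 + u) = _ at h5
    rw [h2, h5] at h4
    have h6 : z * (y * u * y⁻¹) = z * y * u * y⁻¹ := by simp only [mul_assoc]
    rw [h6, c.psi_comm (z * y * u) y⁻¹] at h4
    have h7 : y⁻¹ * (z * y * u) = (y⁻¹ * z * y - z) * u + z * u := by
      rw [sub_mul]
      simp only [mul_assoc]
      rw [sub_add_cancel]
    rw [h7, AddChar.map_add_eq_mul] at h4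
    have h8 := psi_ne (c := c) (z * u)
    have h9 : (c.psi ((y⁻¹ * z * y - z) * u) - 1) * c.psi (z * u) = 0 := by
      rw [sub_mul, one_mul, ← h4, sub_self]
    rcases mul_eq_zero.1 h9 with h10 | h10
    · exact sub_eq_zero.1 h10
    · exact absurd h10 h8
  intro y hy
  have h1 := key y⁻¹ (inv_ne_zero hy)
  rwa [inv_inv] at h1

end Pool.Agent.Helper8.QD
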