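import Pool.Agent.Helper42.QC.Defs

namespace Pool.Agent.Helper8.QD

open Pool.Agent.Helper42.QD Pool.Agent.Helper42.QC

section
variable {K D : Type} [Field K] [DivisionRing D] (c : CD K D)

theorem iterA (n : ℕ) (x : K) (hx : x ∈ c.A) : c.sig^[n] x ∈ c.A := by
  induction n with
  | zero => exact hx
  | succ n ih =>
    rw [Function.iterate_succ_apply']
    exact c.sigA _ ih

theorem symm_eq (x : K) : c.sig.symm x = c.sig^[c.d - 1] x := by
  rw [RingEquiv.symm_apply_eq]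
  rw [← Function.iterate_succ_apply' c.sig (c.d - 1) x]
  have h : (c.d - 1).succ = c.d := by
    have := c.d2
    omega
  rw [h, c.sigd]

theorem symmA (x : K) (hx : x ∈ c.A) : c.sig.symm x ∈ c.A := by
  rw [symm_eq]
  exact iterA c _ x hx

/-- The restriction of `sig` to `A`. -/
def sA : c.A ≃+* c.A where
  toFun x := ⟨c.sig x.1, c.sigA _ x.2⟩
  invFun x := ⟨c.sig.symm x.1, symmA c _ x.2⟩
  left_inv x := Subtype.ext (c.sig.symm_apply_apply x.1)
  right_inv x := Subtype.ext (c.sig.apply_symm_apply x.1)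
  map_mul' x y := Subtype.ext (map_mul c.sig x.1 y.1)
  map_add' x y := Subtype.ext (map_add c.sig x.1 y.1)

/-- The maximal ideal. -/
def II : Ideal c.A := Ideal.span {⟨c.pi, c.piA⟩}

theorem mem_II (x : c.A) : x ∈ II c ↔ x.1 / c.pi ∈ c.A := by
  rw [II, Ideal.mem_span_singleton']
  constructor
  · rintro ⟨a, rfl⟩
    have h : (a * (⟨c.pi, c.piA⟩ : c.A)).1 / c.pi = a.1 := by
      change a.1 * c.pi / c.pi = a.1
      exact mul_div_cancel_right₀ _ c.pine
    rw [h]
    exact a.2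
  · intro h
    exact ⟨⟨x.1 / c.pi, h⟩, Subtype.ext (div_mul_cancel₀ _ c.pine)⟩

theorem unit_of (x : K) (hx : x ∈ c.A) (h : x / c.pi ∉ c.A) : x ≠ 0 ∧ x⁻¹ ∈ c.A := by
  have h0 : x ≠ 0 := by
    rintro rfl
    rw [zero_div] at h
    exact h c.A.zero_mem
  refine ⟨h0, ?_⟩
  obtain ⟨n, u, hu, hu', hxu⟩ := c.unif x h0
  have hu0 : u ≠ 0 := by
    rintro rfl
    rw [zero_mul] at hxu
    exact h0 hxu
  have hpn : c.pi ^ n ≠ 0 := zpow_ne_zero _ c.pine
  obtain ⟨m, hm | hm⟩ := n.eq_nat_or_neg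
  · rcases Nat.eq_zero_or_pos m with hm0 | hm0
    · rw [hm, hm0, Nat.cast_zero, zpow_zero, mul_one] at hxu
      rw [hxu]
      exact hu'
    · exfalso
      apply h
      have h1 : x / c.pi = u * c.pi ^ (m - 1) := by
        rw [div_eq_iff c.pine, mul_assoc, ← pow_succ, Nat.sub_add_cancel hm0, hxu, hm, zpow_natCast]
      rw [h1]
      exact c.A.mul_mem hu (c.A.pow_mem c.piA _)
  · rcases Nat.eq_zero_or_pos m with hm0 | hm0
    · rw [hm, hm0, Nat.cast_zero, neg_zero, zpow_zero, mul_one] at hxu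
      rw [hxu]
      exact hu'
    · exfalso
      apply c.pinv
      have h1 : c.pi⁻¹ = u⁻¹ * x * c.pi ^ (m - 1) := by
        have h2 : c.pi ^ n = (c.pi ^ m)⁻¹ := by rw [hm, zpow_neg, zpow_natCast]
        have h3 : c.pi ^ m = c.pi ^ (m - 1) * c.pi := by rw [← pow_succ, Nat.sub_add_cancel hm0]
        rw [hxu, h2, h3, inv_mul_cancel_left₀ hu0, mul_inv, mul_comm (c.pi ^ (m - 1))⁻¹, mul_assoc,
          inv_mul_cancel₀ (pow_ne_zero _ c.pine), mul_one]
      rw [h1]
      exact c.A.mul_mem (c.A.mul_mem hu' hx) (c.A.pow_mem c.piA _)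

theorem II_max : (II c).IsMaximal := by
  rw [Ideal.isMaximal_iff]
  constructor
  · intro h
    rw [mem_II] at h
    apply c.pinv
    have h1 : ((1 : c.A) : K) / c.pi = c.pi⁻¹ := by
      rw [Subring.coe_one, one_div]
    rwa [h1] at h
  · intro J x hJ hx hxJ
    rw [mem_II] at hx
    obtain ⟨h0, hinv⟩ := unit_of c x.1 x.2 hx
    have h1 : (1 : c.A) = ⟨x.1⁻¹, hinv⟩ * x := by
      apply Subtype.ext
      change (1 : K) = x.1⁻¹ * x.1
      rw [inv_mul_cancel₀ h0]
    rw [h1]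
    exact J.mul_mem_left _ hxJ

theorem II_map : II c = (II c).map (sA c : c.A →+* c.A) := by
  rw [II, Ideal.map_span, Set.image_singleton]
  have h : (sA c : c.A →+* c.A) ⟨c.pi, c.piA⟩ = ⟨c.pi, c.piA⟩ := Subtype.ext c.sigpi
  rw [h]

end

theorem st_RES : ST_RES := by
  classical
  intro K D _ _ c
  have hmax := II_max c
  let _ : Field (c.A ⧸ II c) := Ideal.Quotient.field (II c)
  let r : K → c.A ⧸ II c := fun x => if h : x ∈ c.A then Ideal.Quotient.mk (II c) ⟨x, h⟩ else 0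
  have hr : ∀ x (h : x ∈ c.A), r x = Ideal.Quotient.mk (II c) ⟨x, h⟩ := fun x h => dif_pos h
  let s : (c.A ⧸ II c) ≃+* (c.A ⧸ II c) := Ideal.quotientEquiv (II c) (II c) (sA c) (II_map c)
  have h0 : ∀ x ∈ c.A, (r x = 0 ↔ x / c.pi ∈ c.A) := by
    intro x hx
    rw [hr x hx, Ideal.Quotient.eq_zero_iff_mem, mem_II]
  have hsurj : ∀ a, ∃ x ∈ c.A, r x = a := by
    intro a
    obtain ⟨x, rfl⟩ := Ideal.Quotient.mk_surjective a
    exact ⟨x.1, x.2, hr x.1 x.2⟩
  have hs : ∀ x ∈ c.A, r (c.sig x) = s (r x) := by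
    intro x hx
    rw [hr x hx, hr _ (c.sigA x hx)]
    rfl
  have hadd : ∀ x ∈ c.A, ∀ y ∈ c.A, r (x + y) = r x + r y := by
    intro x hx y hy
    rw [hr x hx, hr y hy, hr _ (c.A.add_mem hx hy), ← map_add]
    rfl
  have hmul : ∀ x ∈ c.A, ∀ y ∈ c.A, r (x * y) = r x * r y := by
    intro x hx y hy
    rw [hr x hx, hr y hy, hr _ (c.A.mul_mem hx hy), ← map_mul]
    rfl
  have hiter : ∀ (n : ℕ) (x : K), x ∈ c.A → (s ^ n) (r x) = r (c.sig^[n] x) := by
    intro n
    induction n with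
    | zero => intro x _; rfl
    | succ n ih =>
      intro x hx
      rw [pow_succ', Function.iterate_succ_apply', hs _ (iterA c n x hx), ← ih x hx]
      rfl
  refine ⟨c.A ⧸ II c, inferInstance, r, s, ?_, hadd, hmul, ?_, h0, hsurj, hs, ?_⟩
  · obtain ⟨S, hS⟩ := c.fin
    let f : S → c.A ⧸ II c := fun t => r t.1
    refine Finite.of_surjective f ?_
    intro a
    obtain ⟨x, hx, rfl⟩ := hsurj a
    obtain ⟨t, ht, hxt⟩ := hS x hx
    refine ⟨⟨t, ht⟩, ?_⟩
    have h1 : x - t ∈ c.A := by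
      have := c.A.mul_mem hxt c.piA
      rwa [div_mul_cancel₀ _ c.pine] at this
    have h2 : t ∈ c.A := by
      have := c.A.sub_mem hx h1
      rwa [sub_sub_cancel] at this
    have h3 := hadd (x - t) h1 t h2
    rw [sub_add_cancel, (h0 _ h1).2 hxt, zero_add] at h3
    exact h3.symm
  · rw [hr 1 c.A.one_mem]
    exact map_one (Ideal.Quotient.mk (II c))
  · rw [orderOf_eq_iff (by have := c.d2; omega)]
    constructor
    · apply RingEquiv.ext
      intro a
      obtain ⟨x, hx, rfl⟩ := hsurj a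
      rw [hiter _ x hx, c.sigd]
      rfl
    · intro m hm hm0 h1
      obtain ⟨x, hx, hx'⟩ := c.sign m hm0 hm
      apply hx'
      have h2 := hiter m x hx
      rw [h1] at h2
      have hA := iterA c m x hx
      have h3 : c.sig^[m] x - x ∈ c.A := c.A.sub_mem hA hx
      have h4 := hadd _ h3 x hx
      rw [sub_add_cancel, ← h2] at h4
      have h5 : r (c.sig^[m] x - x) = 0 := by
        have h6 : r x = r (c.sig^[m] x - x) + r x := h4
        exact (right_eq_add.1 h6)
      exact (h0 _ h3).1 h5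

end Pool.Agent.Helper8.QD
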